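import Mathlib

set_option autoImplicit false

/-!
# The spectral step of the trickle-down argument
-/

open Finset Matrix

namespace Pool.Agent.H85.BMT

variable {ι : Type*} [Fintype ι] [DecidableEq ι]

/-- A symmetric matrix with `A ≤ A²` and `A ≤ 1` whose eigenvectors for the eigenvalue `1` are
orthogonal to `y` is nonpositive at `y`. -/
lemma quad_le_zero_of_spectrum (A : Matrix ι ι ℝ) (hA : A.IsHermitian)
    (h1 : ∀ v : ι → ℝ, v ⬝ᵥ (A *ᵥ v) ≤ (A *ᵥ v) ⬝ᵥ (A *ᵥ v))
    (h2 : ∀ v : ι → ℝ, v ⬝ᵥ (A *ᵥ v) ≤ v ⬝ᵥ v)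
    (y : ι → ℝ) (h3 : ∀ v : ι → ℝ, v ⬝ᵥ (A *ᵥ v) = v ⬝ᵥ v → v ⬝ᵥ y = 0) :
    y ⬝ᵥ (A *ᵥ y) ≤ 0 := by
  set e := hA.eigenvectorBasis with he
  set lam := hA.eigenvalues with hlam
  have hev : ∀ k, A *ᵥ (e k).ofLp = lam k • (e k).ofLp := fun k => hA.mulVec_eigenvectorBasis k
  have hin : ∀ u v : EuclideanSpace ℝ ι, inner ℝ u v = u.ofLp ⬝ᵥ v.ofLp := by
    intro u v
    simp [PiLp.inner_apply, dotProduct, mul_comm]
  have hnorm : ∀ k, (e k).ofLp ⬝ᵥ (e k).ofLp = 1 := by
    intro k
    rw [← hin, real_inner_self_eq_norm_sq, e.norm_eq_one k]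
    norm_num
  have hq : ∀ k, (e k).ofLp ⬝ᵥ (A *ᵥ (e k).ofLp) = lam k := by
    intro k
    rw [hev, dotProduct_smul, hnorm, smul_eq_mul, mul_one]
  have hsym : ∀ u v : ι → ℝ, u ⬝ᵥ (A *ᵥ v) = (A *ᵥ u) ⬝ᵥ v := by
    intro u v
    rw [Matrix.dotProduct_mulVec, ← Matrix.mulVec_transpose]
    have : Aᵀ = A := by
      have := hA.eq
      rwa [Matrix.conjTranspose_eq_transpose_of_trivial] at this
    rw [this]
  have hexp : y ⬝ᵥ (A *ᵥ y) = ∑ k, lam k * ((e k).ofLp ⬝ᵥ y) ^ 2 := by
    have h := e.sum_inner_mul_inner (WithLp.toLp 2 y) (WithLp.toLp 2 (A *ᵥ y))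
    simp only [hin] at h
    rw [← h]
    refine Finset.sum_congr rfl fun k _ => ?_
    rw [hsym, hev, smul_dotProduct, smul_eq_mul, dotProduct_comm y]
    ring
  rw [hexp]
  refine Finset.sum_nonpos fun k _ => ?_
  have a1 := h1 (e k).ofLp
  have a2 := h2 (e k).ofLp
  rw [hq, hev] at a1
  rw [smul_dotProduct, dotProduct_smul, hnorm] at a1
  rw [hq, hnorm] at a2
  simp only [smul_eq_mul, mul_one] at a1
  by_cases h0 : lam k ≤ 0
  · exact mul_nonpos_of_nonpos_of_nonneg h0 (sq_nonneg _)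
  · push Not at h0
    have h4 : lam k = 1 := by
      apply le_antisymm a2
      by_contra h5
      push Not at h5
      nlinarith
    have h5 := h3 (e k).ofLp (by rw [hq, hnorm, h4])
    rw [h5]
    simp

/-- The spectral step: a nonnegative symmetric matrix with connected support which satisfies
the trickle-down inequality has at most one positive eigenvalue. -/
theorem quad_nonpos (H : ι → ι → ℝ) (hs : ∀ a b, H a b = H b a) (hn : ∀ a b, 0 ≤ H a b)
    (x : ι → ℝ) (hx : ∀ a, 0 < x a) (deg : ι → ℝ) (hdeg : ∀ a, deg a = ∑ b, H a b * x b)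
    (hineq : ∀ y : ι → ℝ, ∑ a, ∑ b, H a b * (y a * y b)
      ≤ ∑ a, x a / deg a * (∑ b, H a b * y b) ^ 2)
    (hconn : ∀ a b, 0 < deg a → 0 < deg b → a ≠ b → 0 < H a b ∨ ∃ c, 0 < H a c ∧ 0 < H c b)
    (y : ι → ℝ) (hy : ∑ a, deg a * y a = 0) :
    ∑ a, ∑ b, H a b * (y a * y b) ≤ 0 := by
  have hdeg0 : ∀ a, 0 ≤ deg a := fun a => by
    rw [hdeg]; exact Finset.sum_nonneg fun b _ => mul_nonneg (hn a b) (hx b).le
  have hzero : ∀ a, deg a = 0 → ∀ b, H a b = 0 := by
    intro a ha b
    rw [hdeg] at ha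
    have := (Finset.sum_eq_zero_iff_of_nonneg
      (fun b _ => mul_nonneg (hn a b) (hx b).le)).mp ha b (Finset.mem_univ b)
    rcases mul_eq_zero.mp this with h | h
    · exact h
    · exact absurd h (hx b).ne'
  -- the scaling
  set s : ι → ℝ := fun a => √(x a / deg a) with hsdef
  set r : ι → ℝ := fun a => √(deg a / x a) with hrdef
  have hs2 : ∀ a, s a ^ 2 = x a / deg a := fun a =>
    Real.sq_sqrt (div_nonneg (hx a).le (hdeg0 a))
  have hs0 : ∀ a, 0 ≤ s a := fun a => Real.sqrt_nonneg _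
  have hsr : ∀ a, deg a ≠ 0 → s a * r a = 1 := by
    intro a ha
    simp only [hsdef, hrdef]
    rw [← Real.sqrt_mul (div_nonneg (hx a).le (hdeg0 a))]
    have : x a / deg a * (deg a / x a) = 1 := by
      have := (hx a).ne'
      field_simp
    rw [this, Real.sqrt_one]
  set A : Matrix ι ι ℝ := Matrix.of fun a b => H a b * (s a * s b) with hAdef
  have hA : A.IsHermitian := by
    rw [Matrix.IsHermitian, Matrix.conjTranspose_eq_transpose_of_trivial]
    ext a b
    simp only [hAdef, Matrix.transpose_apply, Matrix.of_apply]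
    rw [hs b a]; ring
  have hAv : ∀ (v : ι → ℝ) a, (A *ᵥ v) a = s a * ∑ b, H a b * (s b * v b) := by
    intro v a
    simp only [hAdef, Matrix.mulVec, dotProduct, Matrix.of_apply, Finset.mul_sum]
    exact Finset.sum_congr rfl fun b _ => by ring
  have hquad : ∀ v : ι → ℝ, v ⬝ᵥ (A *ᵥ v)
      = ∑ a, ∑ b, H a b * ((s a * v a) * (s b * v b)) := by
    intro v
    simp only [dotProduct, hAv, Finset.mul_sum]
    exact Finset.sum_congr rfl fun a _ => Finset.sum_congr rfl fun b _ => by ring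
  have hcol : ∀ a, deg a = 0 → ∀ b, H b a = 0 := fun a ha b => by rw [hs]; exact hzero a ha b
  have h1 : ∀ v : ι → ℝ, v ⬝ᵥ (A *ᵥ v) ≤ (A *ᵥ v) ⬝ᵥ (A *ᵥ v) := by
    intro v
    rw [hquad]
    refine (hineq (fun a => s a * v a)).trans_eq ?_
    simp only [dotProduct, hAv]
    refine Finset.sum_congr rfl fun a _ => ?_
    rw [← hs2 a]
    ring
  -- the defect of `A ≤ 1`
  have hdefect : ∀ v : ι → ℝ, v ⬝ᵥ v - v ⬝ᵥ (A *ᵥ v)
      = 1 / 2 * (∑ a, ∑ b, H a b * (x a * x b) * (s a * v a / x a - s b * v b / x b) ^ 2)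
        + ∑ a, (if deg a = 0 then v a ^ 2 else 0) := by
    intro v
    have e1 : ∀ a b, H a b * (x a * x b) * (s a * v a / x a - s b * v b / x b) ^ 2
        = H a b * x b * (s a ^ 2 * v a ^ 2 / x a) + H a b * x a * (s b ^ 2 * v b ^ 2 / x b)
          - 2 * (H a b * ((s a * v a) * (s b * v b))) := by
      intro a b
      have ha := (hx a).ne'
      have hb := (hx b).ne'
      field_simp
      ring
    have e2 : ∑ a, ∑ b, H a b * x b * (s a ^ 2 * v a ^ 2 / x a)
        = ∑ a, (if deg a = 0 then 0 else v a ^ 2) := by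
      refine Finset.sum_congr rfl fun a _ => ?_
      rw [← Finset.sum_mul, ← hdeg, hs2]
      split_ifs with h
      · rw [h]; simp
      · have ha := (hx a).ne'
        field_simp
    have e3 : ∑ a, ∑ b, H a b * x a * (s b ^ 2 * v b ^ 2 / x b)
        = ∑ a, (if deg a = 0 then 0 else v a ^ 2) := by
      rw [Finset.sum_comm, ← e2]
      exact Finset.sum_congr rfl fun a _ => Finset.sum_congr rfl fun b _ => by rw [hs b a]
    have e4 : v ⬝ᵥ v = ∑ a, (if deg a = 0 then 0 else v a ^ 2)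
        + ∑ a, (if deg a = 0 then v a ^ 2 else 0) := by
      rw [← Finset.sum_add_distrib]
      refine Finset.sum_congr rfl fun a _ => ?_
      split_ifs <;> ring
    simp only [e1, Finset.sum_sub_distrib, Finset.sum_add_distrib, ← Finset.mul_sum]
    rw [e2, e3, e4, hquad]
    ring
  have h2 : ∀ v : ι → ℝ, v ⬝ᵥ (A *ᵥ v) ≤ v ⬝ᵥ v := by
    intro v
    have h := hdefect v
    have p1 : 0 ≤ ∑ a, ∑ b, H a b * (x a * x b) * (s a * v a / x a - s b * v b / x b) ^ 2 :=
      Finset.sum_nonneg fun a _ => Finset.sum_nonneg fun b _ =>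
        mul_nonneg (mul_nonneg (hn a b) (mul_pos (hx a) (hx b)).le) (sq_nonneg _)
    have p2 : 0 ≤ ∑ a, (if deg a = 0 then v a ^ 2 else 0) :=
      Finset.sum_nonneg fun a _ => by split_ifs <;> positivity
    linarith
  set y' : ι → ℝ := fun a => r a * y a with hy'
  have h3 : ∀ v : ι → ℝ, v ⬝ᵥ (A *ᵥ v) = v ⬝ᵥ v → v ⬝ᵥ y' = 0 := by
    intro v hv
    have h := hdefect v
    rw [hv, sub_self] at h
    have p1 : 0 ≤ ∑ a, ∑ b, H a b * (x a * x b) * (s a * v a / x a - s b * v b / x b) ^ 2 :=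
      Finset.sum_nonneg fun a _ => Finset.sum_nonneg fun b _ =>
        mul_nonneg (mul_nonneg (hn a b) (mul_pos (hx a) (hx b)).le) (sq_nonneg _)
    have p2 : 0 ≤ ∑ a, (if deg a = 0 then v a ^ 2 else 0) :=
      Finset.sum_nonneg fun a _ => by split_ifs <;> positivity
    have q1 : ∑ a, ∑ b, H a b * (x a * x b) * (s a * v a / x a - s b * v b / x b) ^ 2 = 0 := by
      linarith
    have heq : ∀ a b, 0 < H a b → s a * v a / x a = s b * v b / x b := by
      intro a b hab
      have t1 := (Finset.sum_eq_zero_iff_of_nonneg (fun a _ => Finset.sum_nonneg fun b _ =>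
        mul_nonneg (mul_nonneg (hn a b) (mul_pos (hx a) (hx b)).le) (sq_nonneg _))).mp q1 a
        (Finset.mem_univ a)
      have t2 := (Finset.sum_eq_zero_iff_of_nonneg (fun b _ =>
        mul_nonneg (mul_nonneg (hn a b) (mul_pos (hx a) (hx b)).le) (sq_nonneg _))).mp t1 b
        (Finset.mem_univ b)
      have t3 : 0 < H a b * (x a * x b) := mul_pos hab (mul_pos (hx a) (hx b))
      rcases mul_eq_zero.mp t2 with t | t
      · exact absurd t t3.ne'
      · exact sub_eq_zero.mp (pow_eq_zero_iff (two_ne_zero) |>.mp t)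
    have hall : ∀ a b, 0 < deg a → 0 < deg b → s a * v a / x a = s b * v b / x b := by
      intro a b ha hb
      by_cases hab : a = b
      · rw [hab]
      rcases hconn a b ha hb hab with h | ⟨c, hc1, hc2⟩
      · exact heq a b h
      · rw [heq a c hc1, heq c b hc2]
    -- a common value
    obtain ⟨κ, hκ⟩ : ∃ κ : ℝ, ∀ a, 0 < deg a → s a * v a / x a = κ := by
      by_cases hex : ∃ a, 0 < deg a
      · obtain ⟨a0, ha0⟩ := hex
        exact ⟨s a0 * v a0 / x a0, fun a ha => hall a a0 ha ha0⟩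
      · exact ⟨0, fun a ha => absurd ⟨a, ha⟩ hex⟩
    have hterm : ∀ a, v a * y' a = κ * (deg a * y a) := by
      intro a
      rcases (hdeg0 a).lt_or_eq with ha | ha
      · have h4 := hκ a ha
        have h5 := hsr a ha.ne'
        have h6 : v a = r a * (κ * x a) := by
          have : s a * v a = κ * x a := by
            rw [← h4]; have := (hx a).ne'; field_simp
          calc v a = (s a * r a) * v a := by rw [h5, one_mul]
            _ = r a * (s a * v a) := by ring
            _ = r a * (κ * x a) := by rw [this]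
        have h7 : r a * r a = deg a / x a := by
          simp only [hrdef]
          exact Real.mul_self_sqrt (div_nonneg (hdeg0 a) (hx a).le)
        simp only [hy']
        rw [h6]
        calc r a * (κ * x a) * (r a * y a) = (r a * r a) * x a * (κ * y a) := by ring
          _ = κ * (deg a * y a) := by rw [h7]; have := (hx a).ne'; field_simp
      · have : r a = 0 := by simp only [hrdef]; rw [← ha]; simp
        simp only [hy']
        rw [this, ← ha]
        ring
    simp only [dotProduct, hterm]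
    rw [← Finset.mul_sum, hy, mul_zero]
  have hfin := quad_le_zero_of_spectrum A hA h1 h2 y' h3
  rw [hquad] at hfin
  refine le_trans (le_of_eq ?_) hfin
  refine Finset.sum_congr rfl fun a _ => Finset.sum_congr rfl fun b _ => ?_
  by_cases ha : deg a = 0
  · rw [hzero a ha b]; ring
  by_cases hb : deg b = 0
  · rw [hcol b hb a]; ring
  simp only [hy']
  have e1 := hsr a ha
  have e2 := hsr b hb
  calc H a b * (y a * y b) = H a b * ((s a * r a) * y a * ((s b * r b) * y b)) := by
        rw [e1, e2]; ring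
    _ = H a b * (s a * (r a * y a) * (s b * (r b * y b))) := by ring

omit [DecidableEq ι] in
/-- The reverse Cauchy-Schwarz inequality from nonpositivity on a hyperplane. -/
theorem reverse_cs (H : ι → ι → ℝ) (hs : ∀ a b, H a b = H b a) (m : ι → ℝ)
    (h : ∀ y : ι → ℝ, ∑ a, m a * y a = 0 → ∑ a, ∑ b, H a b * (y a * y b) ≤ 0)
    (x y : ι → ℝ) (hx : 0 < ∑ a, ∑ b, H a b * (x a * x b)) :
    (∑ a, ∑ b, H a b * (x a * x b)) * (∑ a, ∑ b, H a b * (y a * y b))
      ≤ (∑ a, ∑ b, H a b * (x a * y b)) ^ 2 := by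
  set Q : (ι → ℝ) → (ι → ℝ) → ℝ := fun u v => ∑ a, ∑ b, H a b * (u a * v b) with hQ
  set M : (ι → ℝ) → ℝ := fun u => ∑ a, m a * u a with hM
  have hQs : ∀ u v, Q u v = Q v u := by
    intro u v
    simp only [hQ]
    rw [Finset.sum_comm]
    exact Finset.sum_congr rfl fun a _ => Finset.sum_congr rfl fun b _ => by rw [hs b a]; ring
  have hlin : ∀ (α β : ℝ) (u v : ι → ℝ), Q (fun a => α * u a + β * v a)
      (fun a => α * u a + β * v a) = α ^ 2 * Q u u + 2 * α * β * Q u v + β ^ 2 * Q v v := by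
    intro α β u v
    have e : Q (fun a => α * u a + β * v a) (fun a => α * u a + β * v a)
        = α ^ 2 * Q u u + α * β * Q u v + α * β * Q v u + β ^ 2 * Q v v := by
      simp only [hQ, Finset.mul_sum, ← Finset.sum_add_distrib]
      exact Finset.sum_congr rfl fun a _ => Finset.sum_congr rfl fun b _ => by ring
    rw [e, hQs v u]; ring
  have hMx : M x ≠ 0 := by
    intro h0
    exact absurd (h x h0) (not_le.mpr hx)
  -- `y - (M y / M x) x` lies in the hyperplane
  set c := M y / M x with hc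
  have hz : ∑ a, m a * ((-c) * x a + 1 * y a) = 0 := by
    have : ∑ a, m a * ((-c) * x a + 1 * y a) = (-c) * M x + M y := by
      simp only [hM, Finset.mul_sum, ← Finset.sum_add_distrib]
      exact Finset.sum_congr rfl fun a _ => by ring
    rw [this, hc]
    field_simp
    ring
  have h1 := h _ hz
  have h2 := hlin (-c) 1 x y
  have h3 : Q (fun a => (-c) * x a + 1 * y a) (fun a => (-c) * x a + 1 * y a) ≤ 0 := h1
  rw [h2] at h3
  change Q x x * Q y y ≤ Q x y ^ 2
  have hxx : 0 < Q x x := hx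
  nlinarith [sq_nonneg (c * Q x x - Q x y), mul_nonneg hxx.le (neg_nonneg.mpr h3)]

end Pool.Agent.H85.BMT
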