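import Mathlib
import Pool.Agent.H85.BMT.Spectral

set_option autoImplicit false

/-!
# The trickle-down argument for multi-affine polynomials
-/

open Finset

namespace Pool.Agent.H85.BMT

variable {ι : Type*} [Fintype ι] [DecidableEq ι]

/-- The partial derivative `∂_S` of the polynomial `∑_{|J| = i} κ(J) x^J`. -/
noncomputable def PS (i : ℕ) (κ : Finset ι → ℝ) (S : Finset ι) (x : ι → ℝ) : ℝ :=
  ∑ J : Finset ι, if J.card = i ∧ S ⊆ J then κ J * ∏ j ∈ J \ S, x j else 0

/-- The gradient. -/
noncomputable def GS (i : ℕ) (κ : Finset ι → ℝ) (S : Finset ι) (x : ι → ℝ) (a : ι) : ℝ :=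
  if a ∉ S then PS i κ (insert a S) x else 0

/-- The Hessian. -/
noncomputable def HS (i : ℕ) (κ : Finset ι → ℝ) (S : Finset ι) (x : ι → ℝ) (a b : ι) : ℝ :=
  if a ∉ S ∧ b ∉ S ∧ a ≠ b then PS i κ (insert a (insert b S)) x else 0

variable {i : ℕ} {κ : Finset ι → ℝ}

lemma euler (i : ℕ) (κ : Finset ι → ℝ) (S : Finset ι) (x : ι → ℝ) :
    ∑ a, x a * GS i κ S x a = ((i : ℝ) - S.card) * PS i κ S x := by
  unfold GS PS
  have h1 : ∀ a, x a * (if a ∉ S then ∑ J : Finset ι,
      (if J.card = i ∧ insert a S ⊆ J then κ J * ∏ j ∈ J \ insert a S, x j else 0) else 0)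
      = ∑ J : Finset ι, if J.card = i ∧ S ⊆ J then
          (if a ∈ J \ S then κ J * ∏ j ∈ J \ S, x j else 0) else 0 := by
    intro a
    by_cases ha : a ∉ S
    · rw [if_pos ha, Finset.mul_sum]
      refine Finset.sum_congr rfl fun J _ => ?_
      by_cases hJ : J.card = i ∧ S ⊆ J
      · rw [if_pos hJ]
        by_cases haJ : a ∈ J
        · have h2 : J.card = i ∧ insert a S ⊆ J := ⟨hJ.1, Finset.insert_subset haJ hJ.2⟩
          have h3 : a ∈ J \ S := Finset.mem_sdiff.mpr ⟨haJ, ha⟩
          rw [if_pos h2, if_pos h3, ← Finset.mul_prod_erase (J \ S) x h3]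
          have : (J \ S).erase a = J \ insert a S := by
            ext j
            simp only [Finset.mem_erase, Finset.mem_sdiff, Finset.mem_insert]
            tauto
          rw [this]
          ring
        · have h2 : ¬ (J.card = i ∧ insert a S ⊆ J) := fun h => haJ (h.2 (Finset.mem_insert_self a S))
          have h3 : a ∉ J \ S := fun h => haJ (Finset.mem_sdiff.mp h).1
          rw [if_neg h2, if_neg h3, mul_zero]
      · have h2 : ¬ (J.card = i ∧ insert a S ⊆ J) := fun h =>
          hJ ⟨h.1, (Finset.subset_insert a S).trans h.2⟩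
        rw [if_neg hJ, if_neg h2, mul_zero]
    · rw [if_neg ha, mul_zero]
      symm
      refine Finset.sum_eq_zero fun J _ => ?_
      have : a ∉ J \ S := fun h => ha (Finset.mem_sdiff.mp h).2
      rw [if_neg this]
      simp
  simp only [h1]
  rw [Finset.sum_comm, Finset.mul_sum]
  refine Finset.sum_congr rfl fun J _ => ?_
  by_cases hJ : J.card = i ∧ S ⊆ J
  · simp only [if_pos hJ]
    rw [Finset.sum_ite_mem, Finset.univ_inter, Finset.sum_const, nsmul_eq_mul,
      Finset.card_sdiff_of_subset hJ.2, Nat.cast_sub (Finset.card_le_card hJ.2), hJ.1]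
  · simp only [if_neg hJ]
    simp

lemma GS_insert (S : Finset ι) (x : ι → ℝ) (a b : ι) (ha : a ∉ S) :
    GS i κ (insert a S) x b = HS i κ S x a b := by
  unfold GS HS
  by_cases hb : b ∉ S ∧ a ≠ b
  · have h1 : b ∉ insert a S := by
      rw [Finset.mem_insert, not_or]; exact ⟨fun h => hb.2 h.symm, hb.1⟩
    rw [if_pos h1, if_pos ⟨ha, hb.1, hb.2⟩, Finset.insert_comm]
  · have h1 : ¬ (b ∉ insert a S) := by
      rw [Finset.mem_insert, not_or]
      intro h
      exact hb ⟨h.2, fun h' => h.1 h'.symm⟩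
    rw [if_neg h1, if_neg (fun h => hb h.2)]

lemma HS_symm (S : Finset ι) (x : ι → ℝ) (a b : ι) : HS i κ S x a b = HS i κ S x b a := by
  unfold HS
  rw [Finset.insert_comm]
  by_cases h : a ∉ S ∧ b ∉ S ∧ a ≠ b
  · rw [if_pos h, if_pos ⟨h.2.1, h.1, h.2.2.symm⟩]
  · rw [if_neg h, if_neg (fun h' => h ⟨h'.2.1, h'.1, h'.2.2.symm⟩)]

lemma HS_eq_zero_left (S : Finset ι) (x : ι → ℝ) (a b : ι) (ha : a ∈ S) :
    HS i κ S x a b = 0 := by
  unfold HS
  rw [if_neg (fun h => h.1 ha)]

/-- Euler for the Hessian. -/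
lemma euler_HS (S : Finset ι) (x : ι → ℝ) (a : ι) :
    ∑ b, HS i κ S x a b * x b = ((i : ℝ) - S.card - 1) * GS i κ S x a := by
  by_cases ha : a ∉ S
  · have h := euler i κ (insert a S) x
    rw [Finset.card_insert_of_notMem ha] at h
    push_cast at h
    have e : ∑ b, HS i κ S x a b * x b = ∑ b, x b * GS i κ (insert a S) x b :=
      Finset.sum_congr rfl fun b _ => by rw [GS_insert S x a b ha]; ring
    rw [e, h]
    unfold GS
    rw [if_pos ha]
    ring
  · push Not at ha
    have : GS i κ S x a = 0 := by unfold GS; rw [if_neg (not_not.mpr ha)]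
    rw [this, mul_zero]
    exact Finset.sum_eq_zero fun b _ => by rw [HS_eq_zero_left S x a b ha, zero_mul]

/-- The Hessian is a sum of Hessians of the links. -/
lemma sum_HS_insert (S : Finset ι) (x : ι → ℝ) (a b : ι) :
    ∑ c, x c * (if c ∉ S then HS i κ (insert c S) x a b else 0)
      = ((i : ℝ) - S.card - 2) * HS i κ S x a b := by
  by_cases h : a ∉ S ∧ b ∉ S ∧ a ≠ b
  · have he := euler i κ (insert a (insert b S)) x
    have hc : (insert a (insert b S)).card = S.card + 2 := by
      rw [Finset.card_insert_of_notMem, Finset.card_insert_of_notMem h.2.1]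
      rw [Finset.mem_insert, not_or]
      exact ⟨h.2.2, h.1⟩
    rw [hc] at he
    push_cast at he
    have e1 : HS i κ S x a b = PS i κ (insert a (insert b S)) x := by
      unfold HS; rw [if_pos h]
    rw [e1]
    have e2 : ((i : ℝ) - S.card - 2) = (i : ℝ) - (S.card + 2) := by ring
    rw [e2, ← he]
    refine Finset.sum_congr rfl fun c _ => ?_
    congr 1
    unfold GS HS
    by_cases hcS : c ∉ insert a (insert b S)
    · rw [if_pos hcS]
      simp only [Finset.mem_insert, not_or] at hcS
      have h1 : a ∉ insert c S := by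
        rw [Finset.mem_insert, not_or]; exact ⟨fun h' => hcS.1 h'.symm, h.1⟩
      have h2 : b ∉ insert c S := by
        rw [Finset.mem_insert, not_or]; exact ⟨fun h' => hcS.2.1 h'.symm, h.2.1⟩
      rw [if_pos hcS.2.2, if_pos ⟨h1, h2, h.2.2⟩]
      congr 1
      ext j
      simp only [Finset.mem_insert]
      tauto
    · rw [if_neg hcS]
      simp only [Finset.mem_insert, not_or, not_and, not_not] at hcS
      by_cases h1 : c ∉ S
      · rw [if_pos h1, if_neg]
        rintro ⟨g1, g2, -⟩
        rw [Finset.mem_insert, not_or] at g1 g2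
        exact h1 (hcS (fun h' => g1.1 h'.symm) (fun h' => g2.1 h'.symm))
      · rw [if_neg h1]
  · have e1 : HS i κ S x a b = 0 := by unfold HS; rw [if_neg h]
    rw [e1, mul_zero]
    refine Finset.sum_eq_zero fun c _ => ?_
    have : HS i κ (insert c S) x a b = 0 := by
      unfold HS
      rw [if_neg]
      rintro ⟨h1, h2, h3⟩
      rw [Finset.mem_insert, not_or] at h1 h2
      exact h ⟨h1.2, h2.2, h3⟩
    rw [this]
    simp

lemma PS_nonneg (hκ : ∀ J, 0 ≤ κ J) (S : Finset ι) (x : ι → ℝ) (hx : ∀ a, 0 < x a) :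
    0 ≤ PS i κ S x := by
  refine Finset.sum_nonneg fun J _ => ?_
  split_ifs
  · exact mul_nonneg (hκ J) (Finset.prod_nonneg fun j _ => (hx j).le)
  · exact le_rfl

lemma PS_pos_iff (hκ : ∀ J, 0 ≤ κ J) (S : Finset ι) (x : ι → ℝ) (hx : ∀ a, 0 < x a) :
    0 < PS i κ S x ↔ ∃ J : Finset ι, J.card = i ∧ S ⊆ J ∧ 0 < κ J := by
  unfold PS
  rw [Finset.sum_pos_iff_of_nonneg]
  · constructor
    · rintro ⟨J, -, hJ⟩
      split_ifs at hJ with h
      · refine ⟨J, h.1, h.2, ?_⟩
        exact pos_of_mul_pos_left hJ (Finset.prod_nonneg fun j _ => (hx j).le)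
      · exact absurd hJ (lt_irrefl _)
    · rintro ⟨J, h1, h2, h3⟩
      refine ⟨J, Finset.mem_univ _, ?_⟩
      rw [if_pos ⟨h1, h2⟩]
      exact mul_pos h3 (Finset.prod_pos fun j _ => hx j)
  · intro J _
    split_ifs
    · exact mul_nonneg (hκ J) (Finset.prod_nonneg fun j _ => (hx j).le)
    · exact le_rfl

lemma HS_nonneg (hκ : ∀ J, 0 ≤ κ J) (S : Finset ι) (x : ι → ℝ) (hx : ∀ a, 0 < x a) (a b : ι) :
    0 ≤ HS i κ S x a b := by
  unfold HS
  split_ifs
  · exact PS_nonneg hκ _ _ hx
  · exact le_rfl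

/-- At most one positive direction. -/
def Hyp (i : ℕ) (κ : Finset ι → ℝ) (S : Finset ι) (x : ι → ℝ) : Prop :=
  ∃ m : ι → ℝ, ∀ y : ι → ℝ, ∑ a, m a * y a = 0 →
    ∑ a, ∑ b, HS i κ S x a b * (y a * y b) ≤ 0

/-- `S` is contained in the support. -/
def Ext (i : ℕ) (κ : Finset ι → ℝ) (S : Finset ι) : Prop :=
  ∃ J : Finset ι, J.card = i ∧ S ⊆ J ∧ 0 < κ J

/-- The connectivity of the links. -/
def Conn (i : ℕ) (κ : Finset ι → ℝ) : Prop :=
  ∀ S : Finset ι, S.card + 3 ≤ i → ∀ a b, a ∉ S → b ∉ S → a ≠ b →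
    Ext i κ (insert a S) → Ext i κ (insert b S) →
    Ext i κ (insert a (insert b S)) ∨
      ∃ c, c ∉ S ∧ c ≠ a ∧ c ≠ b ∧ Ext i κ (insert a (insert c S)) ∧
        Ext i κ (insert b (insert c S))

/-- One step of the trickle-down. -/
lemma hyp_step (hκ : ∀ J, 0 ≤ κ J) (hconn : Conn i κ) (S : Finset ι) (hS : S.card + 3 ≤ i)
    (x : ι → ℝ) (hx : ∀ a, 0 < x a) (hlink : ∀ c, c ∉ S → Hyp i κ (insert c S) x) :
    Hyp i κ S x := by
  set H := HS i κ S x with hH
  have hk : (0 : ℝ) < (i : ℝ) - S.card - 2 := by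
    have : ((S.card : ℝ) + 3) ≤ i := by exact_mod_cast hS
    linarith
  set k : ℝ := (i : ℝ) - S.card - 2 with hkdef
  set deg : ι → ℝ := fun a => ∑ b, H a b * x b with hdeg
  have hdegG : ∀ a, deg a = (k + 1) * GS i κ S x a := by
    intro a
    simp only [hdeg, hH]
    rw [euler_HS]
    congr 1
    rw [hkdef]; ring
  refine ⟨deg, fun y hy => ?_⟩
  refine quad_nonpos H (HS_symm S x) (HS_nonneg hκ S x hx) x hx deg (fun a => rfl) ?_ ?_ y hy
  · -- the trickle-down inequality
    intro y
    have hL : ∀ c, c ∉ S → ∑ a, ∑ b, HS i κ (insert c S) x a b * (y a * y b)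
        ≤ k * ((∑ b, H c b * y b) ^ 2 / deg c) := by
      intro c hc
      have hcard : (i : ℝ) - (insert c S).card - 1 = k := by
        rw [Finset.card_insert_of_notMem hc, hkdef]; push_cast; ring
      have hxy : ∀ z : ι → ℝ, ∑ a, ∑ b, HS i κ (insert c S) x a b * (x a * z b)
          = k * ∑ b, H c b * z b := by
        intro z
        rw [Finset.sum_comm, Finset.mul_sum]
        refine Finset.sum_congr rfl fun b _ => ?_
        have h1 := euler_HS (i := i) (κ := κ) (insert c S) x b
        rw [hcard, GS_insert S x c b hc] at h1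
        have h2 : ∑ a, HS i κ (insert c S) x a b * (x a * z b)
            = (∑ a, HS i κ (insert c S) x b a * x a) * z b := by
          rw [Finset.sum_mul]
          exact Finset.sum_congr rfl fun a _ => by rw [HS_symm]; ring
        rw [h2, h1, hH]
        ring
      have hxx := hxy x
      have hdc : ∑ b, H c b * x b = deg c := rfl
      rw [hdc] at hxx
      have hdeg0 : 0 ≤ deg c := Finset.sum_nonneg fun b _ =>
        mul_nonneg (HS_nonneg hκ S x hx c b) (hx b).le
      rcases hdeg0.lt_or_eq with hd | hd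
      · obtain ⟨m, hm⟩ := hlink c hc
        have h3 := reverse_cs (HS i κ (insert c S) x) (HS_symm _ x) m hm x y
          (by rw [hxx]; exact mul_pos hk hd)
        rw [hxx, hxy y] at h3
        have h4 : k * deg c * (∑ a, ∑ b, HS i κ (insert c S) x a b * (y a * y b))
            ≤ k * deg c * (k * ((∑ b, H c b * y b) ^ 2 / deg c)) := by
          refine h3.trans_eq ?_
          field_simp
        exact le_of_mul_le_mul_left h4 (mul_pos hk hd)
      · rw [← hd, mul_zero] at hxx
        have hz : ∀ a b, HS i κ (insert c S) x a b = 0 := by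
          intro a b
          have n1 : ∀ a b, 0 ≤ HS i κ (insert c S) x a b * (x a * x b) := fun a b =>
            mul_nonneg (HS_nonneg hκ _ x hx a b) (mul_pos (hx a) (hx b)).le
          have t1 := (Finset.sum_eq_zero_iff_of_nonneg
            (fun a _ => Finset.sum_nonneg fun b _ => n1 a b)).mp hxx a (Finset.mem_univ a)
          have t2 := (Finset.sum_eq_zero_iff_of_nonneg (fun b _ => n1 a b)).mp t1 b
            (Finset.mem_univ b)
          rcases mul_eq_zero.mp t2 with t | t
          · exact t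
          · exact absurd t (mul_pos (hx a) (hx b)).ne'
        simp only [hz, zero_mul, Finset.sum_const_zero]
        rw [← hd]
        simp
    have hsum : k * ∑ a, ∑ b, H a b * (y a * y b)
        = ∑ c, x c * (if c ∉ S then ∑ a, ∑ b, HS i κ (insert c S) x a b * (y a * y b) else 0) := by
      have e1 : ∀ a b, k * (H a b * (y a * y b))
          = ∑ c, x c * (if c ∉ S then HS i κ (insert c S) x a b * (y a * y b) else 0) := by
        intro a b
        rw [← mul_assoc, ← sum_HS_insert S x a b, Finset.sum_mul]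
        refine Finset.sum_congr rfl fun c _ => ?_
        split_ifs <;> ring
      rw [Finset.mul_sum]
      simp only [Finset.mul_sum, e1]
      have e2 : ∀ a, ∑ b, ∑ c, x c * (if c ∉ S then HS i κ (insert c S) x a b * (y a * y b) else 0)
          = ∑ c, ∑ b, x c * (if c ∉ S then HS i κ (insert c S) x a b * (y a * y b) else 0) :=
        fun a => Finset.sum_comm
      simp only [e2]
      rw [Finset.sum_comm]
      refine Finset.sum_congr rfl fun c _ => ?_
      by_cases hc : c ∉ S
      · simp only [if_pos hc, Finset.mul_sum]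
      · simp only [if_neg hc, mul_zero, Finset.sum_const_zero]
    have hfin : k * ∑ a, ∑ b, H a b * (y a * y b)
        ≤ k * ∑ a, x a / deg a * (∑ b, H a b * y b) ^ 2 := by
      rw [hsum, Finset.mul_sum]
      refine Finset.sum_le_sum fun c _ => ?_
      by_cases hc : c ∉ S
      · rw [if_pos hc]
        calc x c * ∑ a, ∑ b, HS i κ (insert c S) x a b * (y a * y b)
            ≤ x c * (k * ((∑ b, H c b * y b) ^ 2 / deg c)) :=
              mul_le_mul_of_nonneg_left (hL c hc) (hx c).le
          _ = k * (x c / deg c * (∑ b, H c b * y b) ^ 2) := by ring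
      · rw [if_neg hc, mul_zero]
        have hdeg0 : 0 ≤ deg c := Finset.sum_nonneg fun b _ =>
          mul_nonneg (HS_nonneg hκ S x hx c b) (hx b).le
        exact mul_nonneg hk.le (mul_nonneg (div_nonneg (hx c).le hdeg0) (sq_nonneg _))
    exact le_of_mul_le_mul_left hfin hk
  · -- connectivity
    intro a b ha hb hab
    have hpos : ∀ a, 0 < deg a → a ∉ S ∧ Ext i κ (insert a S) := by
      intro a ha
      rw [hdegG] at ha
      have h1 : 0 < GS i κ S x a := pos_of_mul_pos_right ha (by linarith)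
      unfold GS at h1
      by_cases h2 : a ∉ S
      · rw [if_pos h2] at h1
        exact ⟨h2, (PS_pos_iff hκ _ x hx).mp h1⟩
      · rw [if_neg h2] at h1
        exact absurd h1 (lt_irrefl _)
    have hHpos : ∀ a b, a ∉ S → b ∉ S → a ≠ b → Ext i κ (insert a (insert b S)) → 0 < H a b := by
      intro a b h1 h2 h3 h4
      simp only [hH]
      unfold HS
      rw [if_pos ⟨h1, h2, h3⟩]
      exact (PS_pos_iff hκ _ x hx).mpr h4
    obtain ⟨ha1, ha2⟩ := hpos a ha
    obtain ⟨hb1, hb2⟩ := hpos b hb
    rcases hconn S hS a b ha1 hb1 hab ha2 hb2 with h | ⟨c, hc1, hc2, hc3, hc4, hc5⟩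
    · exact Or.inl (hHpos a b ha1 hb1 hab h)
    · refine Or.inr ⟨c, hHpos a c ha1 hc1 hc2.symm hc4, ?_⟩
      simp only [hH]
      rw [HS_symm]
      exact hHpos b c hb1 hc1 hc3.symm hc5

/-- The trickle-down. -/
theorem hyp_all (hκ : ∀ J, 0 ≤ κ J) (hconn : Conn i κ)
    (hbase : ∀ S : Finset ι, S.card + 2 = i → ∃ m : ι → ℝ, ∀ y : ι → ℝ, ∑ a, m a * y a = 0 →
      ∑ a, ∑ b, (if a ∉ S ∧ b ∉ S ∧ a ≠ b then κ (insert a (insert b S)) else 0)
        * (y a * y b) ≤ 0)
    (x : ι → ℝ) (hx : ∀ a, 0 < x a) (k : ℕ) (S : Finset ι) (hS : S.card + 2 + k = i) :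
    Hyp i κ S x := by
  induction k generalizing S with
  | zero =>
    obtain ⟨m, hm⟩ := hbase S (by simpa using hS)
    refine ⟨m, fun y hy => ?_⟩
    refine le_trans (le_of_eq ?_) (hm y hy)
    refine Finset.sum_congr rfl fun a _ => Finset.sum_congr rfl fun b _ => ?_
    congr 1
    unfold HS
    by_cases h : a ∉ S ∧ b ∉ S ∧ a ≠ b
    · rw [if_pos h, if_pos h]
      have hc : (insert a (insert b S)).card = i := by
        rw [Finset.card_insert_of_notMem, Finset.card_insert_of_notMem h.2.1]
        · omega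
        · rw [Finset.mem_insert, not_or]
          exact ⟨h.2.2, h.1⟩
      unfold PS
      rw [Finset.sum_eq_single (insert a (insert b S))]
      · rw [if_pos ⟨hc, Finset.Subset.refl _⟩, Finset.sdiff_self, Finset.prod_empty, mul_one]
      · intro J _ hJ
        rw [if_neg]
        rintro ⟨h1, h2⟩
        exact hJ (Finset.eq_of_subset_of_card_le h2 (by rw [h1, hc])).symm
      · intro h'
        exact absurd (Finset.mem_univ _) h'
    · rw [if_neg h, if_neg h]
  | succ k ih =>
    refine hyp_step hκ hconn S (by omega) x hx fun c hc => ih (insert c S) ?_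
    rw [Finset.card_insert_of_notMem hc]
    omega

end Pool.Agent.H85.BMT
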