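import Mathlib
import Pool.Agent.H85.BMT.Poly

set_option autoImplicit false

/-!
# The Brunn-Minkowski inequality for multi-affine polynomials
-/

open Finset Filter Topology

namespace Pool.Agent.H85.BMT

variable {ι : Type*} [Fintype ι] [DecidableEq ι] {i : ℕ} {κ : Finset ι → ℝ}

omit [Fintype ι] in
lemma hasDerivAt_prod (T : Finset ι) (u d : ι → ℝ) (s : ℝ) :
    HasDerivAt (fun s : ℝ => ∏ j ∈ T, (u j + s * d j))
      (∑ a ∈ T, (∏ j ∈ T.erase a, (u j + s * d j)) * d a) s := by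
  have h := HasDerivAt.fun_finsetProd (u := T)
    (f := fun j (s : ℝ) => u j + s * d j) (f' := fun j => d j) (x := s)
    (fun j _ => by simpa using ((hasDerivAt_id s).mul_const (d j)).const_add (u j))
  simpa [smul_eq_mul] using h

lemma hasDerivAt_PS (S : Finset ι) (u d : ι → ℝ) (s : ℝ) :
    HasDerivAt (fun s : ℝ => PS i κ S (fun j => u j + s * d j))
      (∑ a, d a * GS i κ S (fun j => u j + s * d j) a) s := by
  set z : ι → ℝ := fun j => u j + s * d j with hz
  have h1 : HasDerivAt (fun s : ℝ => PS i κ S (fun j => u j + s * d j))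
      (∑ J : Finset ι, if J.card = i ∧ S ⊆ J then
        κ J * ∑ a ∈ J \ S, (∏ j ∈ (J \ S).erase a, z j) * d a else 0) s := by
    unfold PS
    apply HasDerivAt.fun_sum
    intro J _
    by_cases hJ : J.card = i ∧ S ⊆ J
    · simp only [if_pos hJ]
      exact (hasDerivAt_prod (J \ S) u d s).const_mul (κ J)
    · simp only [if_neg hJ]
      exact hasDerivAt_const s (0 : ℝ)
  refine h1.congr_deriv ?_
  have h2 : ∀ a, d a * GS i κ S z a
      = ∑ J : Finset ι, if J.card = i ∧ S ⊆ J then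
          (if a ∈ J \ S then κ J * ((∏ j ∈ (J \ S).erase a, z j) * d a) else 0) else 0 := by
    intro a
    unfold GS PS
    by_cases ha : a ∉ S
    · rw [if_pos ha, Finset.mul_sum]
      refine Finset.sum_congr rfl fun J _ => ?_
      by_cases hJ : J.card = i ∧ S ⊆ J
      · rw [if_pos hJ]
        by_cases haJ : a ∈ J
        · have h2 : J.card = i ∧ insert a S ⊆ J := ⟨hJ.1, Finset.insert_subset haJ hJ.2⟩
          have h3 : a ∈ J \ S := Finset.mem_sdiff.mpr ⟨haJ, ha⟩
          rw [if_pos h2, if_pos h3]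
          have : (J \ S).erase a = J \ insert a S := by
            ext j
            simp only [Finset.mem_erase, Finset.mem_sdiff, Finset.mem_insert]
            tauto
          rw [this]
          ring
        · have h2 : ¬ (J.card = i ∧ insert a S ⊆ J) := fun h => haJ (h.2 (Finset.mem_insert_self a S))
          have h3 : a ∉ J \ S := fun h => haJ (Finset.mem_sdiff.mp h).1
          rw [if_neg h2, if_neg h3, mul_zero]
      · have h2 : ¬ (J.card = i ∧ insert a S ⊆ J) := fun h =>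
          hJ ⟨h.1, (Finset.subset_insert a S).trans h.2⟩
        rw [if_neg hJ, if_neg h2, mul_zero]
    · rw [if_neg ha, mul_zero]
      symm
      refine Finset.sum_eq_zero fun J _ => ?_
      have : a ∉ J \ S := fun h => ha (Finset.mem_sdiff.mp h).2
      rw [if_neg this]
      simp
  simp only [h2]
  rw [Finset.sum_comm]
  refine Finset.sum_congr rfl fun J _ => ?_
  by_cases hJ : J.card = i ∧ S ⊆ J
  · simp only [if_pos hJ]
    rw [Finset.sum_ite_mem, Finset.univ_inter, Finset.mul_sum]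
  · simp only [if_neg hJ]
    simp

/-- The gradient at the empty set, and its derivative. -/
lemma hasDerivAt_grad (u d : ι → ℝ) (s : ℝ) :
    HasDerivAt (fun s : ℝ => ∑ a, d a * GS i κ ∅ (fun j => u j + s * d j) a)
      (∑ a, ∑ b, HS i κ ∅ (fun j => u j + s * d j) a b * (d a * d b)) s := by
  apply HasDerivAt.fun_sum
  intro a _
  have h := (hasDerivAt_PS (i := i) (κ := κ) (insert a ∅) u d s).const_mul (d a)
  have e : (fun s : ℝ => d a * GS i κ ∅ (fun j => u j + s * d j) a)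
      = fun s : ℝ => d a * PS i κ (insert a ∅) (fun j => u j + s * d j) := by
    funext s
    unfold GS
    rw [if_pos (Finset.notMem_empty a)]
  rw [e]
  refine h.congr_deriv ?_
  rw [Finset.mul_sum]
  refine Finset.sum_congr rfl fun b _ => ?_
  rw [GS_insert ∅ _ a b (Finset.notMem_empty a)]
  ring

lemma PS_empty (x : ι → ℝ) :
    PS i κ ∅ x = ∑ J : Finset ι, if J.card = i then κ J * ∏ j ∈ J, x j else 0 := by
  unfold PS
  simp

lemma PS_smul (c : ℝ) (x : ι → ℝ) : PS i κ ∅ (fun j => c * x j) = c ^ i * PS i κ ∅ x := by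
  rw [PS_empty, PS_empty, Finset.mul_sum]
  refine Finset.sum_congr rfl fun J _ => ?_
  split_ifs with h
  · rw [Finset.prod_mul_distrib, Finset.prod_const, h]; ring
  · simp

/-- The second order inequality. -/
lemma second_order (hi : 2 ≤ i) (x d : ι → ℝ)
    (hhyp : Hyp i κ ∅ x) (hpos : 0 < PS i κ ∅ x) :
    PS i κ ∅ x * ∑ a, ∑ b, HS i κ ∅ x a b * (d a * d b)
      ≤ (1 - 1 / (i : ℝ)) * (∑ a, d a * GS i κ ∅ x a) ^ 2 := by
  have hi' : (2 : ℝ) ≤ i := by exact_mod_cast hi
  have hxy : ∀ z : ι → ℝ, ∑ a, ∑ b, HS i κ ∅ x a b * (x a * z b)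
      = ((i : ℝ) - 1) * ∑ a, z a * GS i κ ∅ x a := by
    intro z
    rw [Finset.sum_comm, Finset.mul_sum]
    refine Finset.sum_congr rfl fun b _ => ?_
    have h1 := euler_HS (i := i) (κ := κ) ∅ x b
    rw [Finset.card_empty, Nat.cast_zero, sub_zero] at h1
    have h2 : ∑ a, HS i κ ∅ x a b * (x a * z b) = (∑ a, HS i κ ∅ x b a * x a) * z b := by
      rw [Finset.sum_mul]
      exact Finset.sum_congr rfl fun a _ => by rw [HS_symm]; ring
    rw [h2, h1]
    ring
  have he := euler i κ ∅ x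
  rw [Finset.card_empty, Nat.cast_zero, sub_zero] at he
  have hxx := hxy x
  rw [he] at hxx
  obtain ⟨m, hm⟩ := hhyp
  have h3 := reverse_cs (HS i κ ∅ x) (HS_symm _ x) m hm x d
    (by rw [hxx]; exact mul_pos (by linarith) (mul_pos (by linarith) hpos))
  rw [hxx, hxy d] at h3
  set P := PS i κ ∅ x
  set Q := ∑ a, ∑ b, HS i κ ∅ x a b * (d a * d b)
  set G := ∑ a, d a * GS i κ ∅ x a
  have hk : (0 : ℝ) < (i : ℝ) * (i - 1) := mul_pos (by linarith) (by linarith)
  have h4 : (i : ℝ) * (i - 1) * (P * Q) ≤ (i : ℝ) * (i - 1) * ((1 - 1 / (i : ℝ)) * G ^ 2) := by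
    have e : (i : ℝ) * (i - 1) * ((1 - 1 / (i : ℝ)) * G ^ 2) = (((i : ℝ) - 1) * G) ^ 2 := by
      have : (i : ℝ) ≠ 0 := by linarith
      field_simp
    rw [e]
    refine le_trans (le_of_eq ?_) h3
    ring
  exact le_of_mul_le_mul_left h4 hk

/-- Superadditivity on the open orthant. -/
lemma superadd_pos (hi : 2 ≤ i) (hκ : ∀ J, 0 ≤ κ J)
    (hhyp : ∀ x : ι → ℝ, (∀ a, 0 < x a) → Hyp i κ ∅ x)
    (x y : ι → ℝ) (hx : ∀ a, 0 < x a) (hy : ∀ a, 0 < y a) :
    (PS i κ ∅ x) ^ (1 / (i : ℝ)) + (PS i κ ∅ y) ^ (1 / (i : ℝ))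
      ≤ (PS i κ ∅ (fun a => x a + y a)) ^ (1 / (i : ℝ)) := by
  have hi' : (2 : ℝ) ≤ i := by exact_mod_cast hi
  have hi0 : (i : ℝ) ≠ 0 := by linarith
  by_cases hex : ∃ J : Finset ι, J.card = i ∧ ∅ ⊆ J ∧ 0 < κ J
  swap
  · have hz : ∀ x : ι → ℝ, (∀ a, 0 < x a) → PS i κ ∅ x = 0 := by
      intro x hx
      refine le_antisymm ?_ (PS_nonneg hκ ∅ x hx)
      by_contra h
      push Not at h
      exact hex ((PS_pos_iff hκ ∅ x hx).mp h)
    rw [hz x hx, hz y hy, hz _ (fun a => add_pos (hx a) (hy a)), Real.zero_rpow (by positivity)]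
    simp
  set z : ℝ → ι → ℝ := fun s j => x j + s * (y j - x j) with hzdef
  have hzpos : ∀ s ∈ Set.Icc (0:ℝ) 1, ∀ a, 0 < z s a := by
    intro s hs a
    have : z s a = (1 - s) * x a + s * y a := by simp only [hzdef]; ring
    rw [this]
    rcases hs.1.lt_or_eq with h | h
    · have := mul_pos h (hy a)
      have := mul_nonneg (sub_nonneg.mpr hs.2) (hx a).le
      linarith
    · rw [← h]; simpa using hx a
  set P : ℝ → ℝ := fun s => PS i κ ∅ (z s) with hP
  have hPpos : ∀ s ∈ Set.Icc (0:ℝ) 1, 0 < P s := fun s hs =>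
    (PS_pos_iff hκ ∅ _ (hzpos s hs)).mpr hex
  set P1 : ℝ → ℝ := fun s => ∑ a, (y a - x a) * GS i κ ∅ (z s) a with hP1
  set P2 : ℝ → ℝ := fun s => ∑ a, ∑ b, HS i κ ∅ (z s) a b * ((y a - x a) * (y b - x b)) with hP2
  have hd1 : ∀ s, HasDerivAt P (P1 s) s := fun s =>
    hasDerivAt_PS (i := i) (κ := κ) ∅ x (fun j => y j - x j) s
  have hd2 : ∀ s, HasDerivAt P1 (P2 s) s := fun s =>
    hasDerivAt_grad (i := i) (κ := κ) x (fun j => y j - x j) s
  set r : ℝ := 1 / (i : ℝ) with hr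
  have hr0 : 0 < r := by rw [hr]; positivity
  have hconc : ConcaveOn ℝ (Set.Icc (0:ℝ) 1) (fun s => P s ^ r) := by
    apply concaveOn_of_hasDerivWithinAt2_nonpos (convex_Icc 0 1)
      (f' := fun s => P1 s * r * P s ^ (r - 1))
      (f'' := fun s => (P2 s * r) * P s ^ (r - 1) + (P1 s * r) * (P1 s * (r - 1) * P s ^ (r - 1 - 1)))
    · intro s hs
      exact ((hd1 s).continuousAt.rpow_const (Or.inl (hPpos s hs).ne')).continuousWithinAt
    · intro s hs
      rw [interior_Icc] at hs ⊢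
      have hs' := hPpos s (Set.Ioo_subset_Icc_self hs)
      exact ((hd1 s).rpow_const (Or.inl hs'.ne')).hasDerivWithinAt
    · intro s hs
      rw [interior_Icc] at hs ⊢
      have hs' := hPpos s (Set.Ioo_subset_Icc_self hs)
      exact (((hd2 s).mul_const r).fun_mul
        ((hd1 s).rpow_const (p := r - 1) (Or.inl hs'.ne'))).hasDerivWithinAt
    · intro s hs
      rw [interior_Icc] at hs
      have hs1 := Set.Ioo_subset_Icc_self hs
      have hs' := hPpos s hs1
      have hso := second_order hi (z s) (fun j => y j - x j)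
        (hhyp _ (hzpos s hs1)) hs'
      change P s * P2 s ≤ (1 - 1 / (i : ℝ)) * P1 s ^ 2 at hso
      rw [← hr] at hso
      have e : P s ^ (r - 1) = P s * P s ^ (r - 1 - 1) := by
        nth_rewrite 2 [← Real.rpow_one (P s)]
        rw [← Real.rpow_add hs']
        congr 1; ring
      have e2 : P2 s * r * P s ^ (r - 1) + P1 s * r * (P1 s * (r - 1) * P s ^ (r - 1 - 1))
          = r * P s ^ (r - 1 - 1) * (P s * P2 s - (1 - r) * P1 s ^ 2) := by
        rw [e]; ring
      rw [e2]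
      apply mul_nonpos_of_nonneg_of_nonpos
      · exact mul_nonneg hr0.le (Real.rpow_nonneg hs'.le _)
      · linarith
  have hmid := hconc.2 (show (0:ℝ) ∈ Set.Icc (0:ℝ) 1 by simp)
    (show (1:ℝ) ∈ Set.Icc (0:ℝ) 1 by simp) (show (0:ℝ) ≤ 1 / 2 by norm_num)
    (show (0:ℝ) ≤ 1 / 2 by norm_num) (by norm_num)
  simp only [smul_eq_mul, mul_zero, mul_one, zero_add] at hmid
  have e0 : P 0 = PS i κ ∅ x := by
    simp only [hP, hzdef]; congr 1; funext j; ring
  have e1 : P 1 = PS i κ ∅ y := by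
    simp only [hP, hzdef]; congr 1; funext j; ring
  have e2 : P (1 / 2) = (1 / 2) ^ i * PS i κ ∅ (fun a => x a + y a) := by
    rw [← PS_smul]
    simp only [hP, hzdef]; congr 1; funext j; ring
  rw [e0, e1, e2] at hmid
  have hp0 : 0 ≤ PS i κ ∅ (fun a => x a + y a) :=
    PS_nonneg hκ ∅ _ (fun a => add_pos (hx a) (hy a))
  rw [Real.mul_rpow (by positivity) hp0, hr, one_div (i : ℝ),
    Real.pow_rpow_inv_natCast (by norm_num) (by omega)] at hmid
  rw [hr, one_div]
  linarith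

/-- **Brunn-Minkowski for multi-affine polynomials.** -/
theorem superadd (hi : 2 ≤ i) (hκ : ∀ J, 0 ≤ κ J) (hconn : Conn i κ)
    (hbase : ∀ S : Finset ι, S.card + 2 = i → ∃ m : ι → ℝ, ∀ y : ι → ℝ, ∑ a, m a * y a = 0 →
      ∑ a, ∑ b, (if a ∉ S ∧ b ∉ S ∧ a ≠ b then κ (insert a (insert b S)) else 0)
        * (y a * y b) ≤ 0)
    (x y : ι → ℝ) (hx : ∀ a, 0 ≤ x a) (hy : ∀ a, 0 ≤ y a) :
    (∑ J : Finset ι, if J.card = i then κ J * ∏ j ∈ J, x j else 0) ^ (1 / (i : ℝ))
      + (∑ J : Finset ι, if J.card = i then κ J * ∏ j ∈ J, y j else 0) ^ (1 / (i : ℝ))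
      ≤ (∑ J : Finset ι, if J.card = i then κ J * ∏ j ∈ J, (x j + y j) else 0)
        ^ (1 / (i : ℝ)) := by
  have hhyp : ∀ x : ι → ℝ, (∀ a, 0 < x a) → Hyp i κ ∅ x := fun x hx =>
    hyp_all hκ hconn hbase x hx (i - 2) ∅ (by rw [Finset.card_empty]; omega)
  simp only [← PS_empty]
  have hcont : Continuous fun x : ι → ℝ => (PS i κ ∅ x) ^ (1 / (i : ℝ)) := by
    have h1 : Continuous fun x : ι → ℝ => PS i κ ∅ x := by
      simp only [PS_empty]
      refine continuous_finsetSum _ fun J _ => ?_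
      split_ifs
      · fun_prop
      · exact continuous_const
    exact h1.rpow_const fun x => Or.inr (by positivity)
  have ht : Tendsto (fun k : ℕ => (1 : ℝ) / ((k : ℝ) + 1)) atTop (𝓝 0) :=
    tendsto_one_div_add_atTop_nhds_zero_nat
  have hlim : ∀ (w : ι → ℝ) (c : ℝ),
      Tendsto (fun k : ℕ => (PS i κ ∅ (fun a => w a + c * (1 / ((k : ℝ) + 1)))) ^ (1 / (i : ℝ)))
        atTop (𝓝 ((PS i κ ∅ w) ^ (1 / (i : ℝ)))) := by
    intro w c
    have h1 : Tendsto (fun k : ℕ => (fun a => w a + c * (1 / ((k : ℝ) + 1)))) atTop (𝓝 w) := by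
      rw [tendsto_pi_nhds]
      intro a
      simpa using (ht.const_mul c).const_add (w a)
    exact (hcont.tendsto w).comp h1
  refine le_of_tendsto_of_tendsto' ((hlim x 1).add (hlim y 1)) (hlim (fun a => x a + y a) 2) ?_
  intro k
  have hk : 0 < 1 / ((k : ℝ) + 1) := by positivity
  have h := superadd_pos hi hκ hhyp (fun a => x a + 1 * (1 / ((k : ℝ) + 1)))
    (fun a => y a + 1 * (1 / ((k : ℝ) + 1)))
    (fun a => by have := hx a; linarith) (fun a => by have := hy a; linarith)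
  refine h.trans_eq ?_
  congr 2
  funext a
  ring

end Pool.Agent.H85.BMT
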