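import Mathlib
import Pool.Agent.H85.BMT.Poly

set_option autoImplicit false

/-!
# Connectivity of the links of a vector configuration
-/

open Finset

namespace Pool.Agent.H85.BMT

variable {ι : Type*} [DecidableEq ι] {V : Type*} [AddCommGroup V] [Module ℝ V]

lemma notMem_erase (w : ι → V) (J T : Finset ι) (hJ : LinearIndepOn ℝ w (J : Set ι)) (c b : ι)
    (hc : c ∈ J) (hT : T ⊆ J.erase c) (h1 : w b ∉ Submodule.span ℝ (w '' (T : Set ι)))
    (h2 : w b ∈ Submodule.span ℝ (w '' ((insert c T : Finset ι) : Set ι))) :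
    w b ∉ Submodule.span ℝ (w '' ((J.erase c : Finset ι) : Set ι)) := by
  intro h3
  rw [Finset.coe_insert, Set.image_insert_eq, Submodule.mem_span_insert] at h2
  obtain ⟨α, z, hz, hbz⟩ := h2
  have hα : α ≠ 0 := by
    rintro rfl
    apply h1
    rw [hbz, zero_smul, zero_add]
    exact hz
  have hz' : z ∈ Submodule.span ℝ (w '' ((J.erase c : Finset ι) : Set ι)) :=
    Submodule.span_mono (Set.image_mono (by exact_mod_cast hT)) hz
  have h4 : α • w c ∈ Submodule.span ℝ (w '' ((J.erase c : Finset ι) : Set ι)) := by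
    have : α • w c = w b - z := by rw [hbz]; abel
    rw [this]
    exact Submodule.sub_mem _ h3 hz'
  have h5 : w c ∈ Submodule.span ℝ (w '' ((J.erase c : Finset ι) : Set ι)) := by
    have := Submodule.smul_mem _ α⁻¹ h4
    rwa [smul_smul, inv_mul_cancel₀ hα, one_smul] at this
  have h6 := hJ.notMem_span (i := c) (by exact_mod_cast hc)
  apply h6
  convert h5 using 3
  rw [Finset.coe_erase]

lemma indep_exchange (w : ι → V) (J : Finset ι) (hJ : LinearIndepOn ℝ w (J : Set ι)) (c b : ι)
    (h : w b ∉ Submodule.span ℝ (w '' ((J.erase c : Finset ι) : Set ι))) :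
    LinearIndepOn ℝ w ((insert b (J.erase c) : Finset ι) : Set ι) := by
  rw [Finset.coe_insert]
  refine LinearIndepOn.insert ?_ h
  exact hJ.mono (by exact_mod_cast Finset.erase_subset c J)

lemma exists_exchange (w : ι → V) (J : Finset ι) (hJ : LinearIndepOn ℝ w (J : Set ι)) (b : ι)
    (k : ℕ) : ∀ T : Finset ι, T ⊆ J → (J \ T).card = k → T ≠ J →
      w b ∉ Submodule.span ℝ (w '' (T : Set ι)) →
      ∃ c, c ∈ J ∧ c ∉ T ∧ w b ∉ Submodule.span ℝ (w '' ((J.erase c : Finset ι) : Set ι)) := by
  induction k with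
  | zero =>
    intro T hT hk hne _
    exfalso
    apply hne
    rw [Finset.card_eq_zero, Finset.sdiff_eq_empty_iff_subset] at hk
    exact Finset.Subset.antisymm hT hk
  | succ k ih =>
    intro T hT hk hne hb
    obtain ⟨c, hc⟩ : (J \ T).Nonempty := by
      rw [← Finset.card_pos, hk]; omega
    rw [Finset.mem_sdiff] at hc
    by_cases h2 : w b ∈ Submodule.span ℝ (w '' ((insert c T : Finset ι) : Set ι))
    · refine ⟨c, hc.1, hc.2, notMem_erase w J T hJ c b hc.1 ?_ hb h2⟩
      intro j hj
      rw [Finset.mem_erase]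
      exact ⟨fun h => hc.2 (h ▸ hj), hT hj⟩
    · by_cases h3 : insert c T = J
      · refine ⟨c, hc.1, hc.2, ?_⟩
        rw [h3] at h2
        intro h4
        exact h2 (Submodule.span_mono (Set.image_mono (by exact_mod_cast Finset.erase_subset c J)) h4)
      · obtain ⟨c', h5, h6, h7⟩ := ih (insert c T) (Finset.insert_subset hc.1 hT) (by
          have : J \ insert c T = (J \ T).erase c := by
            ext j; simp only [Finset.mem_sdiff, Finset.mem_insert, Finset.mem_erase]; tauto
          rw [this, Finset.card_erase_of_mem (Finset.mem_sdiff.mpr hc), hk]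
          rfl) h3 h2
        exact ⟨c', h5, fun h => h6 (Finset.mem_insert_of_mem h), h7⟩

/-- The links of a vector configuration are connected. -/
theorem conn_of_indep (i : ℕ) (κ : Finset ι → ℝ) (w : ι → V)
    (hpos : ∀ J : Finset ι, J.card = i → (0 < κ J ↔ LinearIndepOn ℝ w (J : Set ι))) :
    Conn i κ := by
  intro S hS a b ha hb hab hEa hEb
  obtain ⟨J1, hJ1c, hJ1s, hJ1p⟩ := hEa
  obtain ⟨J2, hJ2c, hJ2s, hJ2p⟩ := hEb
  rw [hpos J1 hJ1c] at hJ1p
  rw [hpos J2 hJ2c] at hJ2p
  have haJ1 : a ∈ J1 := hJ1s (Finset.mem_insert_self a S)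
  have hSJ1 : S ⊆ J1 := (Finset.subset_insert a S).trans hJ1s
  have hbS : w b ∉ Submodule.span ℝ (w '' (S : Set ι)) := by
    have h1 : LinearIndepOn ℝ w ((insert b S : Finset ι) : Set ι) :=
      hJ2p.mono (by exact_mod_cast hJ2s)
    rw [Finset.coe_insert] at h1
    exact h1.notMem_span_of_insert (by exact_mod_cast hb)
  by_cases hbJ1 : b ∈ J1
  · left
    exact ⟨J1, hJ1c, Finset.insert_subset haJ1 (Finset.insert_subset hbJ1 hSJ1),
      (hpos J1 hJ1c).mpr hJ1p⟩
  have hcard : ∀ c ∈ J1, (insert b (J1.erase c)).card = i := by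
    intro c hc
    rw [Finset.card_insert_of_notMem (fun h => hbJ1 (Finset.mem_of_mem_erase h)),
      Finset.card_erase_of_mem hc, hJ1c]
    have : 0 < J1.card := Finset.card_pos.mpr ⟨c, hc⟩
    omega
  by_cases h2 : w b ∈ Submodule.span ℝ (w '' ((insert a S : Finset ι) : Set ι))
  · right
    have h3 := notMem_erase w J1 S hJ1p a b haJ1 (by
      intro j hj
      rw [Finset.mem_erase]
      exact ⟨fun h => ha (h ▸ hj), hSJ1 hj⟩) hbS h2
    have h4 := indep_exchange w J1 hJ1p a b h3
    obtain ⟨c, hc⟩ : (J1 \ insert a S).Nonempty := by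
      rw [← Finset.card_pos, Finset.card_sdiff_of_subset hJ1s,
        Finset.card_insert_of_notMem ha, hJ1c]
      omega
    rw [Finset.mem_sdiff, Finset.mem_insert, not_or] at hc
    refine ⟨c, hc.2.2, hc.2.1, fun h => hbJ1 (h ▸ hc.1), ?_, ?_⟩
    · exact ⟨J1, hJ1c, Finset.insert_subset haJ1 (Finset.insert_subset hc.1 hSJ1),
        (hpos J1 hJ1c).mpr hJ1p⟩
    · refine ⟨insert b (J1.erase a), hcard a haJ1, ?_, (hpos _ (hcard a haJ1)).mpr h4⟩
      apply Finset.insert_subset_insert
      apply Finset.insert_subset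
      · exact Finset.mem_erase.mpr ⟨hc.2.1, hc.1⟩
      · intro j hj
        rw [Finset.mem_erase]
        exact ⟨fun h => ha (h ▸ hj), hSJ1 hj⟩
  · left
    have hne : insert a S ≠ J1 := by
      intro h
      have := congrArg Finset.card h
      rw [Finset.card_insert_of_notMem ha, hJ1c] at this
      omega
    obtain ⟨c, hc1, hc2, hc3⟩ := exists_exchange w J1 hJ1p b _ (insert a S) hJ1s rfl hne h2
    have h4 := indep_exchange w J1 hJ1p c b hc3
    refine ⟨insert b (J1.erase c), hcard c hc1, ?_, (hpos _ (hcard c hc1)).mpr h4⟩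
    rw [Finset.mem_insert, not_or] at hc2
    apply Finset.insert_subset
    · exact Finset.mem_insert_of_mem (Finset.mem_erase.mpr ⟨fun h => hc2.1 h.symm, haJ1⟩)
    · apply Finset.insert_subset_insert
      intro j hj
      rw [Finset.mem_erase]
      exact ⟨fun h => hc2.2 (h ▸ hj), hSJ1 hj⟩

end Pool.Agent.H85.BMT
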